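import Pool.Agent.Z54S.Str3

set_option autoImplicit false
open Real Set MeasureTheory Filter Topology
open scoped ENNReal NNReal

namespace Pool.Agent.Z54S

open Pool.Agent.R763.Str

/-- a lower triangular linear map -/
noncomputable def TT (a q r : ℝ) (ha : a ≠ 0) (hr : r ≠ 0) : E2 ≃ₗ[ℝ] E2 where
  toFun y := !₂[a * y 0, q * y 0 + r * y 1]
  invFun x := !₂[x 0 / a, (x 1 - q * (x 0 / a)) / r]
  map_add' := by
    intro x y
    ext i
    fin_cases i
    · simp; ring
    · simp; ring
  map_smul' := by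
    intro c x
    ext i
    fin_cases i
    · simp; ring
    · simp; ring
  left_inv := by
    intro x
    ext i
    fin_cases i
    · simp; field_simp
    · simp; field_simp; ring
  right_inv := by
    intro x
    ext i
    fin_cases i
    · simp; field_simp
    · simp; field_simp; ring

theorem TT_apply (a q r : ℝ) (ha : a ≠ 0) (hr : r ≠ 0) (y : E2) :
    TT a q r ha hr y = !₂[a * y 0, q * y 0 + r * y 1] := rfl

theorem ellipse {K : Set E2} (hK : IsCompact K) (hc : Convex ℝ K) (hne : K.Nonempty)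
    {e : ℝ → ℝ} {p : E2} {c A B : ℝ} (h1 : ∀ φ, hs K φ = e φ + pr p φ) (h2 : ∀ φ, 0 < e φ)
    (h3 : ∀ φ, e φ ^ 2 = c + A * cos (2 * φ) + B * sin (2 * φ)) :
    ∃ f : E2 ≃ᵃ[ℝ] E2, K = f '' Metric.closedBall 0 1 := by
  have m1 : 0 < c + A := by
    have := h3 0
    simp at this
    rw [← this]
    have := h2 0
    positivity
  have hdet : A ^ 2 + B ^ 2 < c ^ 2 := by
    obtain ⟨α, ha, hb⟩ := exists_polar A B
    set ρ := √(A ^ 2 + B ^ 2) with hρ
    have hρ0 : 0 ≤ ρ := Real.sqrt_nonneg _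
    have h4 := h3 ((α + π) / 2)
    rw [show 2 * ((α + π) / 2) = α + π by ring, Real.cos_add_pi, Real.sin_add_pi] at h4
    have h5 : 0 < e ((α + π) / 2) ^ 2 := by
      have := h2 ((α + π) / 2)
      positivity
    have h6 := Real.sin_sq_add_cos_sq α
    have h7 : c + A * -cos α + B * -sin α = c - ρ := by
      rw [ha, hb]
      linear_combination (-ρ) * h6
    rw [h4, h7] at h5
    have h8 : ρ ^ 2 = A ^ 2 + B ^ 2 := Real.sq_sqrt (by positivity)
    rw [← h8]
    nlinarith
  set a := √(c + A) with ha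
  have ha0 : 0 < a := Real.sqrt_pos.2 m1
  have ha2 : a ^ 2 = c + A := Real.sq_sqrt m1.le
  set q := B / a with hq
  have hqa : q * a = B := div_mul_cancel₀ _ ha0.ne'
  have hrpos : 0 < (c - A) - q ^ 2 := by
    have : q ^ 2 * (c + A) = B ^ 2 := by rw [← ha2, ← hqa]; ring
    have h5 : 0 < ((c - A) - q ^ 2) * (c + A) := by nlinarith
    exact (pos_iff_pos_of_mul_pos h5).2 m1
  set r := √((c - A) - q ^ 2) with hr
  have hr0 : 0 < r := Real.sqrt_pos.2 hrpos
  have hr2 : r ^ 2 = (c - A) - q ^ 2 := Real.sq_sqrt hrpos.le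
  have he : ∀ φ, e φ ^ 2 = (a * cos φ + q * sin φ) ^ 2 + (r * sin φ) ^ 2 := by
    intro φ
    rw [h3, Real.cos_two_mul, Real.sin_two_mul]
    have h6 := Real.sin_sq_add_cos_sq φ
    have e1 : (a * cos φ + q * sin φ) ^ 2 + (r * sin φ) ^ 2 =
        a ^ 2 * cos φ ^ 2 + 2 * (q * a) * (sin φ * cos φ) + (q ^ 2 + r ^ 2) * sin φ ^ 2 := by ring
    rw [e1, ha2, hqa, hr2]
    have h7 : sin φ ^ 2 = 1 - cos φ ^ 2 := by linarith
    rw [h7]; ring
  refine ⟨(TT a q r ha0.ne' hr0.ne').toAffineEquiv.trans (AffineEquiv.constVAdd ℝ E2 p), ?_⟩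
  have hf : ∀ y, ((TT a q r ha0.ne' hr0.ne').toAffineEquiv.trans (AffineEquiv.constVAdd ℝ E2 p)) y =
      p + !₂[a * y 0, q * y 0 + r * y 1] := fun y => rfl
  have hpr : ∀ (y : E2) φ, pr (!₂[a * y 0, q * y 0 + r * y 1] : E2) φ =
      y 0 * (a * cos φ + q * sin φ) + y 1 * (r * sin φ) := by
    intro y φ
    simp only [pr, PiLp.toLp_apply, Matrix.cons_val_zero, Matrix.cons_val_one]
    ring
  ext x
  constructor
  · intro hx
    set y : E2 := !₂[(x 0 - p 0) / a, ((x 1 - p 1) - q * ((x 0 - p 0) / a)) / r] with hy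
    have y0 : y 0 = (x 0 - p 0) / a := rfl
    have y1 : y 1 = ((x 1 - p 1) - q * ((x 0 - p 0) / a)) / r := rfl
    have hxy : p + !₂[a * y 0, q * y 0 + r * y 1] = x := by
      ext i
      fin_cases i
      · simp [y0]; field_simp; ring
      · simp [y0, y1]; field_simp; ring
    refine ⟨y, ?_, by rw [hf]; exact hxy⟩
    rw [mem_closedBall_zero_iff]
    set w1 := y 1 / r with hw1
    set w0 := (y 0 - q * w1) / a with hw0
    obtain ⟨φ, hp0, hp1⟩ := exists_polar w0 w1
    set ρ := √(w0 ^ 2 + w1 ^ 2) with hρ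
    have hρ0 : 0 ≤ ρ := Real.sqrt_nonneg _
    have t1 : a * w0 + q * w1 = y 0 := by rw [hw0]; field_simp; ring
    have t2 : r * w1 = y 1 := by rw [hw1]; field_simp
    have h8 : (ρ * e φ) ^ 2 = y 0 ^ 2 + y 1 ^ 2 := by
      rw [mul_pow, he, ← t1, ← t2, hp0, hp1]; ring
    have h9 : ρ * pr (!₂[a * y 0, q * y 0 + r * y 1] : E2) φ = y 0 ^ 2 + y 1 ^ 2 := by
      rw [hpr]
      have : ρ * (y 0 * (a * cos φ + q * sin φ) + y 1 * (r * sin φ)) =
        y 0 * (a * (ρ * cos φ) + q * (ρ * sin φ)) + y 1 * (r * (ρ * sin φ)) := by ring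
      rw [this, ← hp0, ← hp1, t1, t2]; ring
    have h10 : pr (!₂[a * y 0, q * y 0 + r * y 1] : E2) φ ≤ e φ := by
      have h11 := le_hs hK hx φ
      rw [h1, ← hxy, pr_add] at h11
      linarith
    have h12 : y 0 ^ 2 + y 1 ^ 2 ≤ ρ * e φ := by
      rw [← h9]; exact mul_le_mul_of_nonneg_left h10 hρ0
    have h13 : ‖y‖ ^ 2 = y 0 ^ 2 + y 1 ^ 2 := norm_sq_eq y
    rw [← h13] at h8 h12
    have h14 : ρ * e φ = ‖y‖ := by
      have := mul_nonneg hρ0 (h2 φ).le
      rwa [sq_eq_sq₀ this (norm_nonneg _)] at h8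
    rw [h14] at h12
    have h15 := norm_nonneg y
    nlinarith
  · rintro ⟨y, hy, rfl⟩
    rw [hf, mem_iff hK hc hne]
    intro φ
    rw [pr_add, h1, hpr]
    rw [mem_closedBall_zero_iff] at hy
    have h13 : ‖y‖ ^ 2 = y 0 ^ 2 + y 1 ^ 2 := norm_sq_eq y
    have h14 : y 0 ^ 2 + y 1 ^ 2 ≤ 1 := by
      rw [← h13]
      have := norm_nonneg y
      nlinarith
    have h15 : y 0 * (a * cos φ + q * sin φ) + y 1 * (r * sin φ) ≤ e φ := by
      apply le_of_sq_le_sq _ (h2 φ).le
      rw [he]
      set X := a * cos φ + q * sin φ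
      set Y := r * sin φ
      nlinarith [sq_nonneg (y 0 * Y - y 1 * X), sq_nonneg X, sq_nonneg Y,
        mul_nonneg (sub_nonneg.2 h14) (add_nonneg (sq_nonneg X) (sq_nonneg Y))]
    linarith

theorem FF_trans {K : Set E2} (hK : IsCompact K) (hne : K.Nonempty) (v x : E2) :
    FF (hs ((fun x => x + v) '' K)) (x + v) = FF (hs K) x := by
  have : hs ((fun x => x + v) '' K) = fun θ => hs K θ + pr v θ := by
    funext θ; exact hs_translate hK hne v θ
  rw [this, FF_translate (hs_continuous hK hne)]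

theorem LL_trans {K : Set E2} (hK : IsCompact K) (hne : K.Nonempty) (v : E2) (l : ℝ) :
    LL (hs ((fun x => x + v) '' K)) l = (fun x => x + v) '' LL (hs K) l := by
  ext x
  constructor
  · intro hx
    refine ⟨x - v, ?_, by simp⟩
    have hx' : FF (hs ((fun x => x + v) '' K)) x ≤ l := hx
    rw [← sub_add_cancel x v, FF_trans hK hne] at hx'
    exact hx'
  · rintro ⟨y, hy, rfl⟩
    show FF (hs ((fun x => x + v) '' K)) (y + v) ≤ l
    rw [FF_trans hK hne]
    exact hy

theorem main {K : Set E2} (hK : IsCompact K) (hc : Convex ℝ K) (hint : (interior K).Nonempty)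
    (hyp : ∀ ℓ1 : ℝ, (μH[1] (frontier K)).toReal < ℓ1 → ∀ ℓ2 : ℝ,
      (μH[1] (frontier {x : E2 | (μH[1] (frontier (convexHull ℝ (insert x K)))).toReal ≤ ℓ1})).toReal
        < ℓ2 →
      ∃ ℓ3 : ℝ, {y : E2 | (μH[1] (frontier (convexHull ℝ (insert y
          {x : E2 | (μH[1] (frontier (convexHull ℝ (insert x K)))).toReal ≤ ℓ1})))).toReal = ℓ2}
        = {y : E2 | (μH[1] (frontier (convexHull ℝ (insert y K)))).toReal = ℓ3}) :
    ∃ f : E2 ≃ᵃ[ℝ] E2, K = f '' Metric.closedBall 0 1 := by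
  have hne : K.Nonempty := hint.mono interior_subset
  have hset : ∀ l, {x : E2 | (μH[1] (frontier (convexHull ℝ (insert x K)))).toReal ≤ l} =
      LL (hs K) l := by
    intro l
    ext x
    show _ ≤ l ↔ FF (hs K) x ≤ l
    rw [perim_hull hK hc hint]
  simp only [hset] at hyp
  rw [perim_toReal hK hc hint] at hyp
  obtain ⟨x0, hx0⟩ := hint
  set v := -x0 with hv
  set K0 := (fun x => x + v) '' K with hK0
  have hK0c : IsCompact K0 := hK.image (by fun_prop)
  have hK0v : Convex ℝ K0 := by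
    have := hc.translate v
    have e : (fun x : E2 => x + v) = (fun x => v + x) := by
      funext y; exact add_comm _ _
    rw [hK0, e]; exact this
  have himg : ∀ S : Set E2, interior ((fun x => x + v) '' S) = (fun x => x + v) '' interior S := by
    intro S
    have := ((IsometryEquiv.addRight v).toHomeomorph.image_interior S).symm
    exact this
  have h00 : (0 : E2) ∈ interior K0 := by
    rw [hK0, himg]
    exact ⟨x0, hx0, by simp [hv]⟩
  have hK0n : K0.Nonempty := ⟨0, interior_subset h00⟩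
  have hWK : W K0 = W K := W_translate hK hne v
  have hnn : ∀ θ, 0 ≤ hs K0 θ := by
    obtain ⟨r, hr, hlow⟩ := pos_of_interior hK0c h00
    exact fun θ => hr.le.trans (hlow θ)
  have hh0 := hs_continuous hK0c hK0n
  have hhyp : Hyp K0 := by
    intro l hl x y hxy hx
    set L := LL (hs K) l with hL
    have hLL : LL (hs K0) l = (fun x => x + v) '' L := LL_trans hK hne v l
    have hL0c : IsCompact (LL (hs K0) l) := LL_compact hh0 (hs_periodic K0) hnn l
    have hL0v : Convex ℝ (LL (hs K0) l) := LL_convex hh0 l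
    have hL0i : (0 : E2) ∈ interior (LL (hs K0) l) := LL_interior hh0 hnn hl
    have hback : L = (fun x => x + x0) '' LL (hs K0) l := by
      rw [hLL, image_image]
      simp [hv]
    have hLc : IsCompact L := by
      rw [hback]; exact hL0c.image (by fun_prop)
    have hLv : Convex ℝ L := by
      rw [hback]
      have := hL0v.translate x0
      have e : (fun x : E2 => x + x0) = (fun x => x0 + x) := by
        funext y; exact add_comm _ _
      rw [e]; exact this
    have hLi : (interior L).Nonempty := by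
      rw [hLL, himg] at hL0i
      obtain ⟨z, hz, _⟩ := hL0i
      exact ⟨z, hz⟩
    have hLn : L.Nonempty := hLi.mono interior_subset
    have hFL : ∀ z, FF (hs (LL (hs K0) l)) z = FF (hs L) (z - v) := by
      intro z
      have := FF_trans hLc hLn v (z - v)
      rw [sub_add_cancel, ← hLL] at this
      exact this
    have hFK : ∀ z, FF (hs K0) z = FF (hs K) (z - v) := by
      intro z
      have := FF_trans hK hne v (z - v)
      rw [sub_add_cancel] at this
      exact this
    have hWL : W (LL (hs K0) l) = W L := by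
      rw [hLL, W_translate hLc hLn]
    obtain ⟨l3, hl3⟩ := hyp l (by rw [← hWK]; exact hl) (FF (hs L) (x - v)) (by
      rw [perim_toReal hLc hLv hLi, ← hWL, ← hFL]; exact hx)
    have hmem : ∀ z, FF (hs L) z = FF (hs L) (x - v) → FF (hs K) z = l3 := by
      intro z hz
      have h1 : z ∈ {y : E2 | (μH[1] (frontier (convexHull ℝ (insert y L)))).toReal =
          FF (hs L) (x - v)} := by
        show _ = _
        rw [perim_hull hLc hLv hLi]; exact hz
      rw [hl3] at h1
      have h2 : (μH[1] (frontier (convexHull ℝ (insert z K)))).toReal = l3 := h1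
      rwa [perim_hull hK hc ⟨x0, hx0⟩] at h2
    rw [hFK, hFK, hmem _ rfl, hmem (y - v) (by rw [← hFL, ← hFL]; exact hxy.symm)]
  obtain ⟨s1, hgood⟩ := good_of_hyp hK0c h00 hhyp
  obtain ⟨p, c, A, B, h1, h2, h3⟩ := hgood.final
  refine ellipse hK hc hne (e := ev (hs K0)) (p := p - v) (c := c) (A := A) (B := B) ?_ h2 h3
  intro φ
  have h4 := h1 φ
  have h5 := hs_translate hK hne v φ
  rw [pr_sub]
  have h6 : hs K0 φ = hs K φ + pr v φ := h5
  linarith

end Pool.Agent.Z54S
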