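import Pool.Agent.R763.StrLevel

set_option autoImplicit false
open Real Set MeasureTheory Filter Topology
open scoped ENNReal NNReal

namespace Pool.Agent.Z54S

open Pool.Agent.R763.Str

/-- A Lipschitz function whose derivative is almost everywhere given by a continuous function. -/
theorem of_ae_deriv {f G : ℝ → ℝ} {C : ℝ≥0} (hf : LipschitzWith C f) (hG : Continuous G)
    (h : ∀ᵐ t : ℝ, HasDerivAt f (G t) t) (x : ℝ) : HasDerivAt f (G x) x := by
  have h1 : ∀ a b, f b - f a = ∫ t in a..b, G t := by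
    intro a b
    have hac : AbsolutelyContinuousOnInterval f a b :=
      (hf.lipschitzOnWith (s := uIcc a b)).absolutelyContinuousOnInterval
    rw [← hac.integral_deriv_eq_sub]
    apply intervalIntegral.integral_congr_ae
    filter_upwards [h] with t ht _
    exact ht.deriv
  have h2 : f = fun u => f x + ∫ t in x..u, G t := by
    funext u; rw [← h1 x u]; ring
  rw [h2]
  exact (hG.integral_hasStrictDerivAt x x).hasDerivAt.const_add _

theorem diff_eq {H : ℝ → ℝ} {s θ a b : ℝ} 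
    (ha : HasDerivAt H a θ) (hb : HasDerivAt H b (θ + π))
    {g : ℝ → ℝ} {c : ℝ} (g0 : ∀ φ, 0 < g φ) (g1 : ∀ φ, g φ - g (φ + π) = H φ - H (φ + π))
    (g2 : ∀ φ, ((g φ + g (φ + π)) / 2) ^ 2 = ((H φ + H (φ + π)) / 2) ^ 2 + c)
    (g3 : g θ = (H (θ + s) + H (θ - s)) / (2 * cos s))
    (g4 : ∀ φ, cos (φ - θ) * g θ + sin (φ - θ) * ((H (θ + s) - H (θ - s)) / (2 * sin s)) ≤ g φ) :
    ((H (θ + s) - H (θ - s)) / (2 * sin s) - (a - b) / 2) *
      ((H (θ + s) + H (θ - s)) / (2 * cos s) - (H θ - H (θ + π)) / 2) =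
      (H θ + H (θ + π)) / 2 * ((a + b) / 2) := by
  set Y := (H (θ + s) - H (θ - s)) / (2 * sin s) with hY
  have hb' : HasDerivAt (fun φ => H (φ + π)) b θ := hb.comp_add_const θ π
  have hE : HasDerivAt (fun φ => (H φ + H (φ + π)) / 2) ((a + b) / 2) θ := (ha.add hb').div_const 2
  have hO : HasDerivAt (fun φ => (H φ - H (φ + π)) / 2) ((a - b) / 2) θ := (ha.sub hb').div_const 2
  have hpos : ∀ φ, 0 < (g φ + g (φ + π)) / 2 := fun φ => by
    have := g0 φ; have := g0 (φ + π); linarith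
  have hsq : ∀ φ, (g φ + g (φ + π)) / 2 = √(((H φ + H (φ + π)) / 2) ^ 2 + c) := by
    intro φ
    rw [← g2 φ, Real.sqrt_sq (hpos φ).le]
  have hg : g = fun φ => (H φ - H (φ + π)) / 2 + √(((H φ + H (φ + π)) / 2) ^ 2 + c) := by
    funext φ
    rw [← hsq φ, ← g1 φ]; ring
  have hpos2 : 0 < ((H θ + H (θ + π)) / 2) ^ 2 + c := by
    rw [← g2 θ]; have := hpos θ; positivity
  have hR : HasDerivAt (fun φ => √(((H φ + H (φ + π)) / 2) ^ 2 + c))
      ((2 * ((H θ + H (θ + π)) / 2) * ((a + b) / 2)) /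
        (2 * √(((H θ + H (θ + π)) / 2) ^ 2 + c))) θ := by
    have h1 : HasDerivAt (fun φ => ((H φ + H (φ + π)) / 2) ^ 2 + c)
        (2 * ((H θ + H (θ + π)) / 2) * ((a + b) / 2)) θ := by
      have := (hE.pow 2).add_const c
      simpa using this
    exact h1.sqrt hpos2.ne'
  have hgd : HasDerivAt g ((a - b) / 2 + (2 * ((H θ + H (θ + π)) / 2) * ((a + b) / 2)) /
        (2 * √(((H θ + H (θ + π)) / 2) ^ 2 + c))) θ := by
    rw [hg]; exact hO.add hR
  have hsub : HasDerivAt (fun φ : ℝ => φ - θ) 1 θ := (hasDerivAt_id θ).sub_const θ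
  have hc : HasDerivAt (fun φ : ℝ => cos (φ - θ) * g θ) (-sin (θ - θ) * 1 * g θ) θ :=
    (hsub.cos).mul_const _
  have hsn : HasDerivAt (fun φ : ℝ => sin (φ - θ) * Y) (cos (θ - θ) * 1 * Y) θ :=
    (hsub.sin).mul_const _
  have hgap := (hgd.sub (hc.add hsn))
  have hmin : IsLocalMin (g - ((fun φ : ℝ => cos (φ - θ) * g θ) + fun φ : ℝ => sin (φ - θ) * Y)) θ := by
    apply Filter.Eventually.of_forall
    intro φ
    simp only [Pi.sub_apply, Pi.add_apply, sub_self, Real.cos_zero, Real.sin_zero]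
    have := g4 φ
    linarith
  have h0 := hmin.hasDerivAt_eq_zero hgap
  simp only [sub_self, Real.cos_zero, Real.sin_zero] at h0
  have hX : √(((H θ + H (θ + π)) / 2) ^ 2 + c) =
      (H (θ + s) + H (θ - s)) / (2 * cos s) - (H θ - H (θ + π)) / 2 := by
    rw [← g3, ← hsq θ, ← g1 θ]; ring
  have hXpos : 0 < √(((H θ + H (θ + π)) / 2) ^ 2 + c) := Real.sqrt_pos.2 hpos2
  rw [← hX]
  have h1 : Y - (a - b) / 2 = (2 * ((H θ + H (θ + π)) / 2) * ((a + b) / 2)) /
        (2 * √(((H θ + H (θ + π)) / 2) ^ 2 + c)) := by linarith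
  rw [h1, div_mul_eq_mul_div, div_eq_iff (by positivity)]
  ring

/-- The properties of the support function obtained from string transitivity. -/
structure Good (H : ℝ → ℝ) (s1 : ℝ) : Prop where
  lip : ∃ C : ℝ≥0, LipschitzWith C H
  per : ∀ θ, H (θ + 2 * π) = H θ
  pos : ∀ θ, 0 < H θ
  bdd : ∃ M, ∀ θ, H θ ≤ M
  s1nn : 0 ≤ s1
  s1lt : s1 < π / 2
  eqn : ∀ s, s1 < s → s < π / 2 → ∀ θ a b : ℝ, HasDerivAt H a θ → HasDerivAt H b (θ + π) →
    ((H (θ + s) - H (θ - s)) / (2 * sin s) - (a - b) / 2) *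
      ((H (θ + s) + H (θ - s)) / (2 * cos s) - (H θ - H (θ + π)) / 2) =
      (H θ + H (θ + π)) / 2 * ((a + b) / 2)

theorem good_of_hyp {K : Set E2} (hK : IsCompact K) (h0 : (0 : E2) ∈ interior K) (hyp : Hyp K) :
    ∃ s1, Good (hs K) s1 := by
  obtain ⟨s1, h1, h2, h3⟩ := level hK h0 hyp
  have hne : K.Nonempty := ⟨0, interior_subset h0⟩
  obtain ⟨r, hr, hlow⟩ := pos_of_interior hK h0
  refine ⟨s1, ⟨?_, hs_periodic K, fun θ => hr.trans_le (hlow θ), ?_, h1, h2, ?_⟩⟩
  · obtain ⟨R, hR⟩ := hK.isBounded.subset_closedBall 0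
    refine ⟨Real.toNNReal (max R 0), ?_⟩
    apply LipschitzWith.of_dist_le_mul
    intro x y
    rw [Real.dist_eq, Real.dist_eq, Real.coe_toNNReal _ (le_max_right _ _)]
    exact hs_lip hK hne (hR.trans (Metric.closedBall_subset_closedBall (le_max_left _ _))) x y
  · obtain ⟨R, hR⟩ := hK.isBounded.subset_closedBall 0
    refine ⟨R, fun θ => hs_le hK hne fun y hy => (pr_le_norm y θ).trans ?_⟩
    simpa using hR hy
  · intro s hs hs' θ a b ha hb
    obtain ⟨g, c, g0, g1, g2, g3, g4⟩ := h3 s hs hs' θ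
    exact diff_eq ha hb g0 g1 g2 g3 g4

variable {H : ℝ → ℝ} {s1 : ℝ}

theorem Good.cont (h : Good H s1) : Continuous H := by
  obtain ⟨C, hC⟩ := h.lip
  exact hC.continuous

theorem Good.odd_deriv (h : Good H s1) {θ a b : ℝ} (ha : HasDerivAt H a θ)
    (hb : HasDerivAt H b (θ + π)) : (a - b) / 2 = (H (θ + π / 2) - H (θ + π / 2 + π)) / 2 := by
  have hc := h.cont
  have hpi := Real.pi_pos
  have key : ∀ s, s1 < s → s < π / 2 → ((H (θ + s) - H (θ - s)) / (2 * sin s) - (a - b) / 2) *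
      (H (θ + s) + H (θ - s) - cos s * (H θ - H (θ + π))) =
      (H θ + H (θ + π)) / 2 * ((a + b) / 2) * (2 * cos s) := by
    intro s hs hs'
    have h0 : 0 ≤ s1 := h.s1nn
    have hcos : 0 < cos s := Real.cos_pos_of_mem_Ioo ⟨by linarith, hs'⟩
    rw [← h.eqn s hs hs' θ a b ha hb]
    have : (H (θ + s) + H (θ - s) - cos s * (H θ - H (θ + π))) =
      ((H (θ + s) + H (θ - s)) / (2 * cos s) - (H θ - H (θ + π)) / 2) * (2 * cos s) := by
      field_simp
    rw [this]; ring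
  have hsin : sin (π / 2) ≠ 0 := by simp
  have t1 : Tendsto (fun s => ((H (θ + s) - H (θ - s)) / (2 * sin s) - (a - b) / 2) *
      (H (θ + s) + H (θ - s) - cos s * (H θ - H (θ + π)))) (𝓝[<] (π / 2))
      (𝓝 (((H (θ + π / 2) - H (θ - π / 2)) / (2 * sin (π / 2)) - (a - b) / 2) *
      (H (θ + π / 2) + H (θ - π / 2) - cos (π / 2) * (H θ - H (θ + π))))) := by
    apply Tendsto.mono_left _ nhdsWithin_le_nhds
    apply ContinuousAt.tendsto (f := fun s => ((H (θ + s) - H (θ - s)) / (2 * sin s) - (a - b) / 2) *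
      (H (θ + s) + H (θ - s) - cos s * (H θ - H (θ + π))))
    have h1 : ContinuousAt (fun s => (H (θ + s) - H (θ - s)) / (2 * sin s)) (π / 2) := by
      apply ContinuousAt.div
      · fun_prop
      · fun_prop
      · simp
    apply ContinuousAt.mul (h1.sub continuousAt_const)
    fun_prop
  have t2 : Tendsto (fun s => (H θ + H (θ + π)) / 2 * ((a + b) / 2) * (2 * cos s)) (𝓝[<] (π / 2))
      (𝓝 ((H θ + H (θ + π)) / 2 * ((a + b) / 2) * (2 * cos (π / 2)))) := by
    apply Tendsto.mono_left _ nhdsWithin_le_nhds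
    apply ContinuousAt.tendsto (f := fun s => (H θ + H (θ + π)) / 2 * ((a + b) / 2) * (2 * cos s))
    fun_prop
  have heq := tendsto_nhds_unique_of_eventuallyEq t1 t2 (by
    filter_upwards [Ioo_mem_nhdsLT h.s1lt] with s hs
    exact key s hs.1 hs.2)
  rw [Real.sin_pi_div_two, Real.cos_pi_div_two] at heq
  have e1 : H (θ - π / 2) = H (θ + π / 2 + π) := by
    rw [← h.per (θ - π / 2)]; congr 1; ring
  rw [e1] at heq
  have p1 := h.pos (θ + π / 2)
  have p2 := h.pos (θ + π / 2 + π)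
  have h3 : ((H (θ + π / 2) - H (θ + π / 2 + π)) / (2 * 1) - (a - b) / 2) *
      (H (θ + π / 2) + H (θ + π / 2 + π)) = 0 := by linarith
  rcases mul_eq_zero.1 h3 with h4 | h4
  · linarith
  · linarith

end Pool.Agent.Z54S
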