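import Pool.Agent.Z54S.Str1

set_option autoImplicit false
open Real Set MeasureTheory Filter Topology
open scoped ENNReal NNReal

namespace Pool.Agent.Z54S

open Pool.Agent.R763.Str

variable {H : ℝ → ℝ} {s1 : ℝ}

theorem ae_shift {P : ℝ → Prop} (h : ∀ᵐ t : ℝ, P t) (c : ℝ) : ∀ᵐ t : ℝ, P (t + c) :=
  (measurePreserving_add_right (volume : Measure ℝ) c).quasiMeasurePreserving.ae h

theorem Good.ae_diff (h : Good H s1) :
    ∀ᵐ θ : ℝ, DifferentiableAt ℝ H θ ∧ DifferentiableAt ℝ H (θ + π) := by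
  obtain ⟨C, hC⟩ := h.lip
  have h1 : ∀ᵐ θ : ℝ, DifferentiableAt ℝ H θ := hC.ae_differentiableAt_real
  filter_upwards [h1, ae_shift h1 π] with θ a b using ⟨a, b⟩

/-- odd part -/
noncomputable def od (H : ℝ → ℝ) (θ : ℝ) : ℝ := (H θ - H (θ + π)) / 2

/-- even part -/
noncomputable def ev (H : ℝ → ℝ) (θ : ℝ) : ℝ := (H θ + H (θ + π)) / 2

theorem lip_shift {C : ℝ≥0} (hC : LipschitzWith C H) (c : ℝ) : LipschitzWith C fun θ => H (θ + c) := by
  apply LipschitzWith.of_dist_le_mul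
  intro x y
  have := hC.dist_le_mul (x + c) (y + c)
  rwa [dist_add_right] at this

theorem Good.lip_od (h : Good H s1) : ∃ C : ℝ≥0, LipschitzWith C (od H) := by
  obtain ⟨C, hC⟩ := h.lip
  refine ⟨C, LipschitzWith.of_dist_le_mul fun x y => ?_⟩
  have h1 := hC.dist_le_mul x y
  have h2 := hC.dist_le_mul (x + π) (y + π)
  rw [dist_add_right] at h2
  rw [Real.dist_eq] at h1 h2 ⊢
  unfold od
  rw [abs_le] at h1 h2 ⊢
  constructor <;> linarith [h1.1, h1.2, h2.1, h2.2]

theorem Good.lip_ev (h : Good H s1) : ∃ C : ℝ≥0, LipschitzWith C (ev H) := by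
  obtain ⟨C, hC⟩ := h.lip
  refine ⟨C, LipschitzWith.of_dist_le_mul fun x y => ?_⟩
  have h1 := hC.dist_le_mul x y
  have h2 := hC.dist_le_mul (x + π) (y + π)
  rw [dist_add_right] at h2
  rw [Real.dist_eq] at h1 h2 ⊢
  unfold ev
  rw [abs_le] at h1 h2 ⊢
  constructor <;> linarith [h1.1, h1.2, h2.1, h2.2]

theorem Good.cont_od (h : Good H s1) : Continuous (od H) := by
  obtain ⟨C, hC⟩ := h.lip_od
  exact hC.continuous

theorem Good.cont_ev (h : Good H s1) : Continuous (ev H) := by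
  obtain ⟨C, hC⟩ := h.lip_ev
  exact hC.continuous

theorem Good.od_deriv (h : Good H s1) (θ : ℝ) : HasDerivAt (od H) (od H (θ + π / 2)) θ := by
  obtain ⟨C, hC⟩ := h.lip_od
  have hc := h.cont_od
  refine of_ae_deriv hC (G := fun θ => od H (θ + π / 2)) (by fun_prop) ?_ θ
  filter_upwards [h.ae_diff] with t ht
  have h1 := h.odd_deriv ht.1.hasDerivAt ht.2.hasDerivAt
  have h2 : HasDerivAt (od H) ((deriv H t - deriv H (t + π)) / 2) t :=
    (ht.1.hasDerivAt.sub (ht.2.hasDerivAt.comp_add_const t π)).div_const 2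
  rw [h1] at h2
  exact h2

theorem Good.od_pi (h : Good H s1) (θ : ℝ) : od H (θ + π) = - od H θ := by
  unfold od
  have := h.per θ
  rw [show θ + π + π = θ + 2 * π by ring, this]; ring

theorem Good.ev_pi (h : Good H s1) (θ : ℝ) : ev H (θ + π) = ev H θ := by
  unfold ev
  have := h.per θ
  rw [show θ + π + π = θ + 2 * π by ring, this]; ring

theorem Good.ev_pos (h : Good H s1) (θ : ℝ) : 0 < ev H θ := by
  unfold ev
  have := h.pos θ
  have := h.pos (θ + π)
  linarith

theorem Good.od_eq (h : Good H s1) : ∃ p : E2, ∀ θ, od H θ = pr p θ := by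
  set A := od H 0 with hA
  set B := od H (π / 2) with hB
  refine ⟨!₂[A, B], ?_⟩
  set w : ℝ → ℝ := fun θ => od H θ - (A * cos θ + B * sin θ) with hw
  set v : ℝ → ℝ := fun θ => od H (θ + π / 2) - (-A * sin θ + B * cos θ) with hv
  have hwd : ∀ θ, HasDerivAt w (v θ) θ := by
    intro θ
    have h1 := (h.od_deriv θ).sub (((Real.hasDerivAt_cos θ).const_mul A).add
      ((Real.hasDerivAt_sin θ).const_mul B))
    refine h1.congr_deriv ?_
    simp only [hv]; ring
  have hvd : ∀ θ, HasDerivAt v (- w θ) θ := by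
    intro θ
    have h0 := (h.od_deriv (θ + π / 2)).comp_add_const θ (π / 2)
    have h1 := h0.sub (((Real.hasDerivAt_sin θ).const_mul (-A)).add
      ((Real.hasDerivAt_cos θ).const_mul B))
    refine h1.congr_deriv ?_
    simp only [hw]
    rw [show θ + π / 2 + π / 2 = θ + π by ring, h.od_pi]; ring
  have hE : ∀ θ, w θ ^ 2 + v θ ^ 2 = 0 := by
    intro θ
    have hd : ∀ θ, HasDerivAt (fun θ => w θ ^ 2 + v θ ^ 2) 0 θ := by
      intro θ
      refine (((hwd θ).pow 2).add ((hvd θ).pow 2)).congr_deriv ?_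
      simp; ring
    have := is_const_of_deriv_eq_zero (fun θ => (hd θ).differentiableAt) (fun θ => (hd θ).deriv) θ 0
    rw [this]
    simp [hw, hv, ← hA, ← hB]
  intro θ
  have h1 := hE θ
  have h2 : w θ = 0 := by nlinarith [sq_nonneg (w θ), sq_nonneg (v θ)]
  simp only [hw] at h2
  simp only [pr, PiLp.toLp_apply, Matrix.cons_val_zero, Matrix.cons_val_one]
  linarith

theorem H_eq (H : ℝ → ℝ) (θ : ℝ) : H θ = ev H θ + od H θ := by
  unfold ev od; ring

/-- equation for the even part -/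
theorem Good.ev_eqn (h : Good H s1) {s : ℝ} (hs : s1 < s) (hs' : s < π / 2) {θ a b : ℝ}
    (ha : HasDerivAt H a θ) (hb : HasDerivAt H b (θ + π)) :
    ev H (θ + s) ^ 2 - ev H (θ - s) ^ 2 = sin (2 * s) * (2 * ev H θ * ((a + b) / 2)) := by
  have hpi := Real.pi_pos
  have h0 : 0 ≤ s1 := h.s1nn
  have hsin : 0 < sin s := Real.sin_pos_of_pos_of_lt_pi (by linarith) (by linarith)
  have hcos : 0 < cos s := Real.cos_pos_of_mem_Ioo ⟨by linarith, hs'⟩
  obtain ⟨p, hp⟩ := h.od_eq
  have h1 := h.eqn s hs hs' θ a b ha hb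
  have h2 := h.odd_deriv ha hb
  have h3 : (H (θ + π / 2) - H (θ + π / 2 + π)) / 2 = pr p (θ + π / 2) := hp (θ + π / 2)
  have h4 : (H θ - H (θ + π)) / 2 = pr p θ := hp θ
  have h5 : (H θ + H (θ + π)) / 2 = ev H θ := rfl
  rw [h2, h3, h4, h5, H_eq H (θ + s), H_eq H (θ - s), hp, hp] at h1
  have e1 : pr p (θ + s) = cos s * pr p θ + sin s * pr p (θ + π / 2) := by
    simp only [pr, Real.cos_add_pi_div_two, Real.sin_add_pi_div_two, Real.cos_add θ s,
      Real.sin_add θ s]; ring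
  have e2 : pr p (θ - s) = cos s * pr p θ - sin s * pr p (θ + π / 2) := by
    simp only [pr, Real.cos_add_pi_div_two, Real.sin_add_pi_div_two, Real.cos_sub θ s,
      Real.sin_sub θ s]; ring
  rw [e1, e2] at h1
  rw [Real.sin_two_mul]
  have f1 : (ev H (θ + s) + (cos s * pr p θ + sin s * pr p (θ + π / 2)) -
      (ev H (θ - s) + (cos s * pr p θ - sin s * pr p (θ + π / 2)))) / (2 * sin s) -
      pr p (θ + π / 2) = (ev H (θ + s) - ev H (θ - s)) / (2 * sin s) := by
    field_simp; ring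
  have f2 : (ev H (θ + s) + (cos s * pr p θ + sin s * pr p (θ + π / 2)) +
      (ev H (θ - s) + (cos s * pr p θ - sin s * pr p (θ + π / 2)))) / (2 * cos s) -
      pr p θ = (ev H (θ + s) + ev H (θ - s)) / (2 * cos s) := by
    field_simp; ring
  rw [f1, f2, div_mul_div_comm, div_eq_iff (by positivity)] at h1
  linear_combination h1

end Pool.Agent.Z54S
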