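import Pool.Agent.Z54S.Str2

set_option autoImplicit false
open Real Set MeasureTheory Filter Topology
open scoped ENNReal NNReal

namespace Pool.Agent.Z54S

open Pool.Agent.R763.Str

variable {H : ℝ → ℝ} {s1 : ℝ}

/-- square of the even part -/
noncomputable def uu (H : ℝ → ℝ) (θ : ℝ) : ℝ := ev H θ ^ 2

theorem Good.lip_uu (h : Good H s1) : ∃ C : ℝ≥0, LipschitzWith C (uu H) := by
  obtain ⟨C, hC⟩ := h.lip_ev
  obtain ⟨M, hM⟩ := h.bdd
  have hb : ∀ θ, ev H θ ≤ M := fun θ => by unfold ev; linarith [hM θ, hM (θ + π)]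
  have hM0 : 0 ≤ M := (h.ev_pos 0).le.trans (hb 0)
  refine ⟨Real.toNNReal (2 * M) * C, LipschitzWith.of_dist_le_mul fun x y => ?_⟩
  have h1 := hC.dist_le_mul x y
  rw [NNReal.coe_mul, Real.coe_toNNReal _ (by linarith), Real.dist_eq, mul_assoc]
  rw [Real.dist_eq] at h1
  have e : uu H x - uu H y = (ev H x + ev H y) * (ev H x - ev H y) := by unfold uu; ring
  rw [e, abs_mul]
  have h2 : |ev H x + ev H y| ≤ 2 * M := by
    have a := h.ev_pos x
    have b := h.ev_pos y
    rw [abs_of_pos (by linarith)]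
    linarith [hb x, hb y]
  exact mul_le_mul h2 h1 (abs_nonneg _) (by linarith)

theorem Good.uu_pi (h : Good H s1) (θ : ℝ) : uu H (θ + π) = uu H θ := by
  unfold uu; rw [h.ev_pi]

/-- uniqueness of the coefficient -/
theorem coef_unique {u : ℝ → ℝ} {D E φ r1 : ℝ} (hr1 : 0 < r1) (hu : HasDerivAt u D φ)
    (h : ∀ r, 0 < r → r < r1 → u (φ + r) - u (φ - r) = sin (2 * r) * E) : D = E := by
  have hu1 : HasDerivAt (fun r => u (φ + r)) D 0 := by
    have : HasDerivAt u D (φ + 0) := by simpa using hu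
    exact this.comp_const_add φ 0
  have hu2 : HasDerivAt (fun r => u (φ - r)) (-D) 0 := by
    have : HasDerivAt u D (φ - 0) := by simpa using hu
    exact this.comp_const_sub φ 0
  have h1 : HasDerivAt (fun r => u (φ + r) - u (φ - r)) (2 * D) 0 :=
    (hu1.sub hu2).congr_deriv (by ring)
  have h2 : HasDerivAt (fun r : ℝ => sin (2 * r) * E) (2 * E) 0 := by
    have h3 : HasDerivAt (fun r : ℝ => 2 * r) 2 0 := by
      simpa using (hasDerivAt_id (0:ℝ)).const_mul 2
    have h4 : HasDerivAt (fun r : ℝ => sin (2 * r)) (cos (2 * 0) * 2) 0 := h3.sin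
    have := h4.mul_const E
    simpa using this
  have hw1 : HasDerivWithinAt (fun r => u (φ + r) - u (φ - r)) (2 * D) (Ioi 0) 0 :=
    h1.hasDerivWithinAt
  have hw2 : HasDerivWithinAt (fun r => u (φ + r) - u (φ - r)) (2 * E) (Ioi 0) 0 := by
    apply (h2.hasDerivWithinAt (s := Ioi 0)).congr_of_eventuallyEq
    · filter_upwards [Ioo_mem_nhdsGT hr1] with r hr
      exact h r hr.1 hr.2
    · simp
  have := (uniqueDiffWithinAt_Ioi (0:ℝ)).eq_deriv _ hw1 hw2
  linarith

/-- the almost everywhere equation -/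
theorem Good.uu_ae (h : Good H s1) : ∀ᵐ φ : ℝ, ∀ r, 0 < r → r < π / 2 - s1 →
    HasDerivAt (uu H) ((uu H (φ + r) - uu H (φ - r)) / sin (2 * r)) φ := by
  have hpi := Real.pi_pos
  have h0 := h.s1nn
  have hlt := h.s1lt
  have hd := h.ae_diff
  filter_upwards [hd, ae_shift hd (-(π / 2))] with φ h1 h2
  obtain ⟨h2a, h2b⟩ := h2
  -- the derivative at `φ - π / 2`
  set E := - (2 * ev H (φ + -(π / 2)) *
    ((deriv H (φ + -(π / 2)) + deriv H (φ + -(π / 2) + π)) / 2)) with hE
  have key : ∀ r, 0 < r → r < π / 2 - s1 →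
      uu H (φ + r) - uu H (φ - r) = sin (2 * r) * E := by
    intro r hr hr'
    have h3 := h.ev_eqn (s := π / 2 - r) (by linarith) (by linarith) h2a.hasDerivAt h2b.hasDerivAt
    have e1 : φ + -(π / 2) + (π / 2 - r) = φ - r := by ring
    have e2 : φ + -(π / 2) - (π / 2 - r) = φ + r - π := by ring
    have e3 : ev H (φ + r - π) = ev H (φ + r) := by
      rw [← h.ev_pi (φ + r - π)]; congr 1; ring
    rw [e1, e2, e3, show 2 * (π / 2 - r) = π - 2 * r by ring, Real.sin_pi_sub] at h3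
    unfold uu
    rw [hE]
    linarith
  have hder : HasDerivAt (uu H) (2 * ev H φ * ((deriv H φ + deriv H (φ + π)) / 2)) φ := by
    have h4 : HasDerivAt (ev H) ((deriv H φ + deriv H (φ + π)) / 2) φ :=
      (h1.1.hasDerivAt.add (h1.2.hasDerivAt.comp_add_const φ π)).div_const 2
    have h5 : HasDerivAt (fun φ => ev H φ ^ 2) _ φ := h4.pow 2
    exact h5.congr_deriv (by simp)
  have h5 := coef_unique (by linarith) hder key
  intro r hr hr'
  have hsin : 0 < sin (2 * r) := Real.sin_pos_of_pos_of_lt_pi (by linarith) (by linarith)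
  rw [key r hr hr', ← h5, mul_div_cancel_left₀ _ hsin.ne']
  exact hder

/-- the equation everywhere -/
theorem Good.uu_deriv (h : Good H s1) {r : ℝ} (hr : 0 < r) (hr' : r < π / 2 - s1) (φ : ℝ) :
    HasDerivAt (uu H) ((uu H (φ + r) - uu H (φ - r)) / sin (2 * r)) φ := by
  obtain ⟨C, hC⟩ := h.lip_uu
  have hc : Continuous (uu H) := hC.continuous
  refine of_ae_deriv hC (G := fun φ => (uu H (φ + r) - uu H (φ - r)) / sin (2 * r)) (by fun_prop)
    ?_ φ
  filter_upwards [h.uu_ae] with t ht using ht r hr hr'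

theorem dalembert {u : ℝ → ℝ} {r1 : ℝ} (hr1 : 0 < r1) (hr2 : r1 ≤ π / 2)
    (h : ∀ r, 0 < r → r < r1 → ∀ φ, HasDerivAt u ((u (φ + r) - u (φ - r)) / sin (2 * r)) φ) :
    ∃ c A B : ℝ, ∀ φ, u φ = c + A * cos (2 * φ) + B * sin (2 * φ) := by
  have hpi := Real.pi_pos
  set r0 := r1 / 2 with hr0
  have hr0p : 0 < r0 := by linarith
  have hr0l : r0 < r1 := by linarith
  have hsin : ∀ r, 0 < r → r < r1 → 0 < sin (2 * r) := fun r a b =>
    Real.sin_pos_of_pos_of_lt_pi (by linarith) (by linarith)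
  set D : (ℝ → ℝ) → ℝ → ℝ := fun f φ => (f (φ + r0) - f (φ - r0)) / sin (2 * r0) with hD
  have hDd : ∀ f g : ℝ → ℝ, (∀ φ, HasDerivAt f (g φ) φ) → ∀ φ, HasDerivAt (D f) (D g φ) φ := by
    intro f g hfg φ
    exact (((hfg (φ + r0)).comp_add_const φ r0).sub ((hfg (φ - r0)).comp_sub_const φ r0)).div_const _
  set v := D u with hv
  set v1 := D v with hv1
  set v2 := D v1 with hv2
  have du : ∀ φ, HasDerivAt u (v φ) φ := fun φ => h r0 hr0p hr0l φ
  have dv : ∀ φ, HasDerivAt v (v1 φ) φ := hDd u v du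
  have dv1 : ∀ φ, HasDerivAt v1 (v2 φ) φ := hDd v v1 dv
  -- (1)
  have e1 : ∀ r, 0 < r → r < r1 → ∀ φ, u (φ + r) - u (φ - r) = sin (2 * r) * v φ := by
    intro r a b φ
    have := (h r a b φ).unique (du φ)
    rw [← this, mul_div_cancel₀ _ (hsin r a b).ne']
  have e1' : ∀ r, 0 < r → r < r1 → ∀ φ, v (φ + r) - v (φ - r) = sin (2 * r) * v1 φ := by
    intro r a b φ
    have h1 := ((du (φ + r)).comp_add_const φ r).sub ((du (φ - r)).comp_sub_const φ r)
    have h2 := (dv φ).const_mul (sin (2 * r))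
    have h3 : ((fun x => u (x + r)) - fun x => u (x - r)) = fun x => sin (2 * r) * v x := by
      funext x; exact e1 r a b x
    rw [h3] at h1
    exact h1.unique h2
  have e1'' : ∀ r, 0 < r → r < r1 → ∀ φ, v1 (φ + r) - v1 (φ - r) = sin (2 * r) * v2 φ := by
    intro r a b φ
    have h1 := ((dv (φ + r)).comp_add_const φ r).sub ((dv (φ - r)).comp_sub_const φ r)
    have h2 := (dv1 φ).const_mul (sin (2 * r))
    have h3 : ((fun x => v (x + r)) - fun x => v (x - r)) = fun x => sin (2 * r) * v1 x := by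
      funext x; exact e1' r a b x
    rw [h3] at h1
    exact h1.unique h2
  have dsin : ∀ r : ℝ, HasDerivAt (fun r : ℝ => sin (2 * r)) (2 * cos (2 * r)) r := by
    intro r
    have h3 : HasDerivAt (fun r : ℝ => 2 * r) 2 r := by
      simpa using (hasDerivAt_id r).const_mul 2
    exact h3.sin.congr_deriv (by ring)
  have dcos : ∀ r : ℝ, HasDerivAt (fun r : ℝ => cos (2 * r)) (-2 * sin (2 * r)) r := by
    intro r
    have h3 : HasDerivAt (fun r : ℝ => 2 * r) 2 r := by
      simpa using (hasDerivAt_id r).const_mul 2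
    exact h3.cos.congr_deriv (by ring)
  -- (2)
  have e2 : ∀ r, 0 < r → r < r1 → ∀ φ, v (φ + r) + v (φ - r) = 2 * cos (2 * r) * v φ := by
    intro r a b φ
    have h1 : HasDerivAt (fun r => u (φ + r) - u (φ - r)) (v (φ + r) - -v (φ - r)) r :=
      ((du (φ + r)).comp_const_add φ r).sub ((du (φ - r)).comp_const_sub φ r)
    have h2 : HasDerivAt (fun r => sin (2 * r) * v φ) (2 * cos (2 * r) * v φ) r :=
      (dsin r).mul_const (v φ)
    have h3 : (fun r => u (φ + r) - u (φ - r)) =ᶠ[𝓝 r] fun r => sin (2 * r) * v φ := by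
      filter_upwards [Ioo_mem_nhds a b] with t ht
      exact e1 t ht.1 ht.2 φ
    have := (h1.congr_of_eventuallyEq h3.symm).unique h2
    linarith
  have e3 : ∀ r, 0 < r → r < r1 → ∀ φ, v1 (φ + r) - v1 (φ - r) = -4 * sin (2 * r) * v φ := by
    intro r a b φ
    have h1 : HasDerivAt (fun r => v (φ + r) + v (φ - r)) (v1 (φ + r) + -v1 (φ - r)) r :=
      ((dv (φ + r)).comp_const_add φ r).add ((dv (φ - r)).comp_const_sub φ r)
    have h2 : HasDerivAt (fun r => 2 * cos (2 * r) * v φ) (-4 * sin (2 * r) * v φ) r :=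
      (((dcos r).const_mul 2).mul_const (v φ)).congr_deriv (by ring)
    have h3 : (fun r => v (φ + r) + v (φ - r)) =ᶠ[𝓝 r] fun r => 2 * cos (2 * r) * v φ := by
      filter_upwards [Ioo_mem_nhds a b] with t ht
      exact e2 t ht.1 ht.2 φ
    have := (h1.congr_of_eventuallyEq h3.symm).unique h2
    linarith
  have e4 : ∀ φ, v2 φ = -4 * v φ := by
    intro φ
    have h1 := e1'' r0 hr0p hr0l φ
    have h2 := e3 r0 hr0p hr0l φ
    have h3 := hsin r0 hr0p hr0l
    rw [h1] at h2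
    have : sin (2 * r0) * (v2 φ) = sin (2 * r0) * (-4 * v φ) := by linarith
    exact mul_left_cancel₀ h3.ne' this
  -- `v1 + 4 u` is constant
  have e5 : ∀ φ, v1 φ + 4 * u φ = v1 0 + 4 * u 0 := by
    intro φ
    have hd : ∀ φ, HasDerivAt (fun φ => v1 φ + 4 * u φ) 0 φ := by
      intro φ
      refine ((dv1 φ).add ((du φ).const_mul 4)).congr_deriv ?_
      rw [e4]; ring
    exact is_const_of_deriv_eq_zero (fun θ => (hd θ).differentiableAt) (fun θ => (hd θ).deriv) φ 0
  set c := (v1 0 + 4 * u 0) / 4 with hc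
  set A := u 0 - c with hA
  set B := v 0 / 2 with hB
  refine ⟨c, A, B, ?_⟩
  set z : ℝ → ℝ := fun φ => u φ - c - (A * cos (2 * φ) + B * sin (2 * φ)) with hz
  set z1 : ℝ → ℝ := fun φ => v φ - (-2 * A * sin (2 * φ) + 2 * B * cos (2 * φ)) with hz1
  have dz : ∀ φ, HasDerivAt z (z1 φ) φ := by
    intro φ
    refine (((du φ).sub_const c).sub (((dcos φ).const_mul A).add ((dsin φ).const_mul B))).congr_deriv ?_
    simp only [hz1]; ring
  have dz1 : ∀ φ, HasDerivAt z1 (-4 * z φ) φ := by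
    intro φ
    refine ((dv φ).sub (((dsin φ).const_mul (-2 * A)).add
      ((dcos φ).const_mul (2 * B)))).congr_deriv ?_
    have := e5 φ
    simp only [hz]
    have : v1 φ = 4 * c - 4 * u φ := by rw [hc]; linarith
    rw [this]; ring
  have hE : ∀ φ, 4 * z φ ^ 2 + z1 φ ^ 2 = 0 := by
    intro φ
    have hd : ∀ φ, HasDerivAt (fun φ => 4 * z φ ^ 2 + z1 φ ^ 2) 0 φ := by
      intro φ
      refine ((((dz φ).pow 2).const_mul 4).add ((dz1 φ).pow 2)).congr_deriv ?_
      simp; ring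
    have := is_const_of_deriv_eq_zero (fun θ => (hd θ).differentiableAt) (fun θ => (hd θ).deriv) φ 0
    rw [this]
    simp only [hz, hz1, hA, hB]
    simp
    ring
  intro φ
  have h1 := hE φ
  have h2 : z φ = 0 := by nlinarith [sq_nonneg (z φ), sq_nonneg (z1 φ)]
  simp only [hz] at h2
  linarith

theorem Good.final (h : Good H s1) : ∃ (p : E2) (c A B : ℝ), (∀ φ, H φ = ev H φ + pr p φ) ∧
    (∀ φ, 0 < ev H φ) ∧ ∀ φ, ev H φ ^ 2 = c + A * cos (2 * φ) + B * sin (2 * φ) := by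
  have hpi := Real.pi_pos
  obtain ⟨p, hp⟩ := h.od_eq
  obtain ⟨c, A, B, hu⟩ := dalembert (u := uu H) (r1 := π / 2 - s1) (by linarith [h.s1lt])
    (by linarith [h.s1nn]) (fun r hr hr' φ => h.uu_deriv hr hr' φ)
  exact ⟨p, c, A, B, fun φ => by rw [← hp]; exact H_eq H φ, h.ev_pos, hu⟩

end Pool.Agent.Z54S
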